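import Pool.Agent.Helper69.RM.St

set_option autoImplicit false

/-! Module PM of project RM. -/

namespace Pool.Agent.Helper2.RM

open Pool.Agent.Helper69.RM Finset Filter

theorem card_AP_PM {y p c : ℕ} : ((AP y p c).card : ℝ) ≤ (y : ℝ) / p + 1 := by
  have h1 : (AP y p c).card ≤ (range (y / p + 1)).card := by
    apply card_le_card_of_injOn (fun m => m / p)
    · intro m hm
      have hm := mem_AP.1 (mem_coe.1 hm)
      rw [coe_range, Set.mem_Iio]
      have := Nat.div_le_div_right (c := p) hm.2.1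
      show m / p < y / p + 1
      omega
    · intro m hm m' hm' h
      have hm := mem_AP.1 (mem_coe.1 hm)
      have hm' := mem_AP.1 (mem_coe.1 hm')
      have h2 : m % p = m' % p := hm.2.2.trans hm'.2.2.symm
      have h3 : m / p = m' / p := h
      rw [← Nat.div_add_mod m p, ← Nat.div_add_mod m' p, h2, h3]
  rw [card_range] at h1
  have h2 : ((AP y p c).card : ℝ) ≤ ((y / p : ℕ) : ℝ) + 1 := by exact_mod_cast h1
  have h3 : ((y / p : ℕ) : ℝ) ≤ (y : ℝ) / p := Nat.cast_div_le
  linarith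

theorem large_PM : ∃ X : ℕ, 3 ≤ X ∧ ∀ x : ℕ, X ≤ x → 8 ≤ LL x := by
  refine ⟨max 3 ⌈Real.exp (Real.exp 8)⌉₊, le_max_left _ _, fun x hx => ?_⟩
  have h1 : Real.exp (Real.exp 8) ≤ (x : ℝ) :=
    Nat.ceil_le.1 (le_trans (le_max_right _ _) hx)
  have h2 : Real.exp 8 ≤ Real.log x := (Real.le_log_iff_exp_le (by
    exact lt_of_lt_of_le (Real.exp_pos _) h1)).2 h1
  exact (Real.le_log_iff_exp_le (lt_of_lt_of_le (Real.exp_pos _) h2)).2 h2

theorem hPM (hKS : StKS) : StPM := by
  intro θ hθ hθ1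
  obtain ⟨X, hX3, hX⟩ := large_PM
  refine ⟨X, fun x hx y u hPar p hp hpx hyp c => ?_⟩
  have hLL := hX x hx
  have hx3 : 3 ≤ x := hX3.trans hx
  have hx3R : (3 : ℝ) ≤ x := by exact_mod_cast hx3
  have hL1 : 1 < Real.log x := by
    rw [Real.lt_log_iff_exp_lt (by linarith)]
    have := Real.exp_one_lt_d9
    linarith
  obtain ⟨hu1, hu2, _, _⟩ := hPar
  have hu0 : 0 < u := by
    have : (0 : ℝ) < LL x ^ 5 := by positivity
    linarith
  -- the size of z
  have hz : Real.log x ^ 8 ≤ zz x u := by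
    unfold zz
    have h1 : LL x ^ 2 ≤ Real.log x / u := by
      rw [le_div_iff₀ hu0]
      linarith
    have h2 : 8 * LL x ≤ LL x ^ 2 := by nlinarith
    calc Real.log x ^ 8 = Real.exp (8 * LL x) := by
          have : Real.exp (8 * LL x) = Real.exp (LL x) ^ 8 := by
            rw [← Real.exp_nat_mul]
            norm_num
          rw [this]
          unfold LL
          rw [Real.exp_log (by linarith)]
      _ ≤ _ := Real.exp_le_exp.2 (h2.trans h1)
  set R := RR x u θ with hR
  have hzz0 : 0 ≤ zz x u := (Real.exp_pos _).le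
  have hRm : ∀ s ∈ R, zz x u < s ∧ (s : ℝ) ≤ (x : ℝ) ^ θ ∧ s.Prime := by
    intro s hs
    exact (mem_PP hzz0).1 hs
  have hR1 : ∀ s ∈ R, 1 ≤ s := fun s hs => (hRm s hs).2.2.one_lt.le
  have hV0 : 0 ≤ VV R := by
    unfold VV
    apply prod_nonneg
    intro s hs
    have h1 : (1 : ℝ) ≤ s := by exact_mod_cast hR1 s hs
    rw [sub_nonneg, div_le_one (by linarith)]
    exact h1
  set A := AP y p c with hA
  have hAc : (A.card : ℝ) ≤ (y : ℝ) / p + 1 := card_AP_PM
  -- distinct classes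
  have hdis : ∀ s ∈ R, ∀ m ∈ A, ∀ m' ∈ A, m ≡ m' [MOD s] → m = m' := by
    intro s hs m hm m' hm' hmm
    obtain ⟨hs1, hs2, hs3⟩ := hRm s hs
    have hm1 := mem_AP.1 hm
    have hm2 := mem_AP.1 hm'
    have hsp : s ≠ p := by
      rintro rfl
      linarith
    have hcop : Nat.Coprime s p := (Nat.coprime_primes hs3 hp).2 hsp
    have hmp : m ≡ m' [MOD p] := hm1.2.2.trans hm2.2.2.symm
    have h1 : m ≡ m' [MOD (s * p)] := (Nat.modEq_and_modEq_iff_modEq_mul hcop).1 ⟨hmm, hmp⟩
    have hys : y < s * p := by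
      have h2 : (y : ℝ) < p * s := by
        have hp0 : (0 : ℝ) < p := by exact_mod_cast hp.pos
        calc (y : ℝ) < p * Real.log x ^ 8 := hyp
          _ ≤ p * s := mul_le_mul_of_nonneg_left (hz.trans hs1.le) hp0.le
      have h3 : y < p * s := by exact_mod_cast h2
      linarith [mul_comm p s]
    exact Nat.ModEq.eq_of_lt_of_lt h1 (lt_of_le_of_lt hm1.2.1 hys) (lt_of_le_of_lt hm2.2.1 hys)
  -- the choice of k
  set k : ℕ := ⌈Real.exp 2 * A.card * VV R + 4 * Real.log x⌉₊ with hk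
  have hbase : 0 < Real.exp 2 * A.card * VV R + 4 * Real.log x := by positivity
  have hk1 : 1 ≤ k := Nat.one_le_ceil_iff.2 hbase
  have hk2 : Real.exp 2 * A.card * VV R + 4 * Real.log x ≤ k := Nat.le_ceil _
  have hk3 : (k : ℝ) < Real.exp 2 * A.card * VV R + 4 * Real.log x + 1 :=
    Nat.ceil_lt_add_one hbase.le
  have hexp2 : Real.exp 2 ≤ 8 := by
    have h1 : Real.exp 2 = Real.exp 1 ^ 2 := by
      rw [← Real.exp_nat_mul]
      norm_num
    rw [h1]
    have := Real.exp_one_lt_d9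
    nlinarith [Real.exp_pos 1]
  have hk4 : (k : ℝ) ≤ 8 * (VV R * ((y : ℝ) / p + 1)) + 4 * Real.log x + 1 := by
    have h1 : Real.exp 2 * A.card * VV R ≤ 8 * (VV R * ((y : ℝ) / p + 1)) := by
      calc Real.exp 2 * A.card * VV R = Real.exp 2 * (VV R * A.card) := by ring
        _ ≤ 8 * (VV R * ((y : ℝ) / p + 1)) := by
          apply mul_le_mul hexp2 (mul_le_mul_of_nonneg_left hAc hV0) (by positivity) (by norm_num)
    linarith
  have hstep : Pr R (fun a => ∃ β : ℕ → ℕ,
      8 * (VV R * ((y : ℝ) / p + 1)) + 4 * Real.log x + 1 ≤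
        ((surv R a (surv (P0 x u) β A)).card : ℝ)) ≤
      Pr R (fun a => k ≤ (surv R a A).card) := by
    apply Pr_mono
    rintro a _ ⟨β, hβ⟩
    have h1 : (surv R a (surv (P0 x u) β A)).card ≤ (surv R a A).card :=
      card_le_card (surv_mono (Subset.refl _) surv_subset)
    have h2 : (k : ℝ) ≤ ((surv R a (surv (P0 x u) β A)).card : ℝ) := hk4.trans hβ
    have h3 : k ≤ (surv R a (surv (P0 x u) β A)).card := by exact_mod_cast h2
    exact h3.trans h1
  refine hstep.trans ((hKS R A k hR1 hdis hk1).trans ?_)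
  have hk0 : (0 : ℝ) < k := by exact_mod_cast hk1
  have hq : Real.exp 1 * A.card * VV R / k ≤ Real.exp (-1) := by
    rw [div_le_iff₀ hk0]
    have h1 : Real.exp 2 * A.card * VV R ≤ k := by linarith
    have h2 : Real.exp 1 = Real.exp (-1) * Real.exp 2 := by
      rw [← Real.exp_add]
      norm_num
    calc Real.exp 1 * A.card * VV R = Real.exp (-1) * (Real.exp 2 * A.card * VV R) := by
          rw [h2]
          ring
      _ ≤ Real.exp (-1) * k := mul_le_mul_of_nonneg_left h1 (Real.exp_pos _).le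
  calc (Real.exp 1 * A.card * VV R / k) ^ k ≤ Real.exp (-1) ^ k :=
        pow_le_pow_left₀ (by positivity) hq k
    _ = Real.exp (-(k : ℝ)) := by
        rw [← Real.exp_nat_mul]
        ring_nf
    _ ≤ Real.exp (-(4 * Real.log x)) := by
        apply Real.exp_le_exp.2
        have : 0 ≤ Real.exp 2 * A.card * VV R := by positivity
        linarith
    _ = 1 / (x : ℝ) ^ 4 := by
        rw [Real.exp_neg, show 4 * Real.log (x : ℝ) = ((4 : ℕ) : ℝ) * Real.log x by norm_num,
          Real.exp_nat_mul, Real.exp_log (by linarith)]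
        simp

end Pool.Agent.Helper2.RM
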