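import Pool.Agent.Helper69.RM.St
import Pool.Agent.Helper60.GP.M_M1
import Pool.Agent.Helper60.GP.M_M2

set_option autoImplicit false

/-! Module WIN of project RM. -/

namespace Pool.Agent.Helper2.RM

open Pool.Agent.Helper69.RM Finset

theorem win_WIN (a b η : ℝ) (ha : 0 < a) (hab : a ≤ b) (hη : 0 < η) :
    ∃ X : ℕ, ∀ x : ℕ, X ≤ x →
      SS (PP ((x : ℝ) ^ a) ((x : ℝ) ^ b)) ≤ Real.log (b / a) + η := by
  have hb : 0 < b := lt_of_lt_of_le ha hab
  have h1 : 1 < Real.exp (η / 2) := Real.one_lt_exp_iff.2 (by positivity)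
  have hb' : b < b * Real.exp (η / 2) := by nlinarith
  obtain ⟨z₀, hz⟩ := Pool.Agent.Helper60.GP.hM2 Pool.Agent.Helper60.GP.hM1 a
    (b * Real.exp (η / 2)) ha (by linarith) (η / 2) (by positivity)
  refine ⟨max 2 ⌈z₀⌉₊, fun x hx => ?_⟩
  have hx2 : 2 ≤ x := le_trans (le_max_left _ _) hx
  have hxz : z₀ ≤ (x : ℝ) := by
    have : ⌈z₀⌉₊ ≤ x := le_trans (le_max_right _ _) hx
    exact Nat.ceil_le.1 this
  have hx1 : (1 : ℝ) < x := by exact_mod_cast (by omega : 1 < x)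
  have h2 := (abs_le.1 (hz x hxz)).2
  have h3 : Real.log (b * Real.exp (η / 2) / a) = Real.log (b / a) + η / 2 := by
    rw [show b * Real.exp (η / 2) / a = b / a * Real.exp (η / 2) by ring,
      Real.log_mul (by positivity) (by positivity), Real.log_exp]
  rw [h3] at h2
  have h4 : SS (PP ((x : ℝ) ^ a) ((x : ℝ) ^ b)) ≤
      ∑ p ∈ (range ⌈(x : ℝ) ^ (b * Real.exp (η / 2))⌉₊).filter
        (fun p : ℕ => p.Prime ∧ (x : ℝ) ^ a ≤ p), (1 : ℝ) / p := by
    unfold SS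
    apply sum_le_sum_of_subset_of_nonneg
    · intro p hp
      rw [mem_PP (by positivity)] at hp
      rw [mem_filter, mem_range, Nat.lt_ceil]
      refine ⟨lt_of_le_of_lt hp.2.1 ?_, hp.2.2, hp.1.le⟩
      exact Real.rpow_lt_rpow_of_exponent_lt hx1 hb'
    · intro p _ _
      positivity
  linarith

theorem hWIN : StWIN := by
  intro θ δ η hθ hδ hθδ hη
  obtain ⟨X1, h1⟩ := win_WIN θ (1 - δ) η hθ hθδ.le hη
  obtain ⟨X2, h2⟩ := win_WIN (1 - δ) 1 η (by linarith) (by linarith) hη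
  refine ⟨max X1 X2, fun x hx => ⟨h1 x (le_trans (le_max_left _ _) hx), ?_⟩⟩
  have := h2 x (le_trans (le_max_right _ _) hx)
  rwa [Real.rpow_one] at this

end Pool.Agent.Helper2.RM
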